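import Pool.Agent.E8helper23.SG.Stm
import Pool.Agent.E8helper10.SZ.Bal

/-!
Project SG (MP_92f640_nt), piece CLS: no two primes with `χ = -1` add up to `n`.
-/

set_option autoImplicit false

namespace Pool.Agent.E8helper54.SG

open Finset Pool.Agent.E8helper23.SG
open Pool.Agent.E8helper22.SZ (RealPrim cv tau)

lemma cv_cases {q : ℕ} {χ : DirichletCharacter ℂ q} (h : RealPrim q χ) (m : ℕ) :
    cv χ m = 0 ∨ cv χ m = 1 ∨ cv χ m = -1 := by
  unfold cv
  rcases h.quad (m : ZMod q) with h | h | h <;> simp [h]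

lemma odd_part (q : ℕ) (χ : DirichletCharacter ℂ q) (h1 : χ (-1) = -1) (n p₁ p₂ : ℕ)
    (hn : q ∣ n) (hp : p₁ + p₂ = n) : ¬ (cv χ p₁ = -1 ∧ cv χ p₂ = -1) := by
  rintro ⟨ha, hb⟩
  have e1 : ((p₁ + p₂ : ℕ) : ZMod q) = 0 := by
    rw [hp]
    exact (ZMod.natCast_eq_zero_iff n q).2 hn
  have e2 : (p₂ : ZMod q) = -1 * (p₁ : ZMod q) := by
    push_cast at e1
    linear_combination e1
  have e3 : χ (p₂ : ZMod q) = -χ (p₁ : ZMod q) := by
    rw [e2, map_mul, h1]
    ring
  have e4 : cv χ p₂ = -cv χ p₁ := by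
    unfold cv
    rw [e3, Complex.neg_re]
  rw [ha, hb] at e4
  norm_num at e4

theorem t_CLS : S_CLS := by
  intro q χ hq hχ
  have hBAL := Pool.Agent.E8helper10.SZ.t_BAL
  refine ⟨fun h1 n p₁ p₂ hn hp => odd_part q χ h1 n p₁ p₂ hn hp, ?_, ?_⟩
  · rintro h1 p q' w n p₁ p₂ hp23 hqp hpw hn hp ⟨ha, hb⟩
    have hpp : p.Prime := by
      rcases hp23 with rfl | rfl <;> norm_num
    obtain ⟨Q, hQ⟩ : ∃ Q, q = Q + 1 := ⟨q - 1, by omega⟩
    have hW : ¬ p ∣ w * Q := by
      intro hd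
      rcases (Nat.Prime.dvd_mul hpp).1 hd with h | h
      · exact hpw h
      · have h2 : p ∣ Q + 1 := by rw [← hQ, hqp]; exact dvd_mul_right _ _
        have h3 : p ∣ 1 := (Nat.dvd_add_right h).1 h2
        exact hpp.one_lt.ne' (Nat.dvd_one.1 h3)
    have hb0 := hBAL q p q' (w * Q) χ hq hχ hpp hqp hW p₁
    have e2 : (p₂ : ZMod q) = -1 * ((p₁ + q' * (w * Q) * 1 : ℕ) : ZMod q) := by
      have e1 : ((p₁ + p₂ : ℕ) : ZMod q) = ((q' * w : ℕ) : ZMod q) := by rw [hp, hn]
      have e3 : ((Q + 1 : ℕ) : ZMod q) = 0 := by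
        rw [← hQ]
        exact ZMod.natCast_self q
      push_cast at e1 e3 ⊢
      linear_combination e1 + (q' : ZMod q) * w * e3
    have e4 : cv χ p₂ = cv χ (p₁ + q' * (w * Q) * 1) := by
      unfold cv
      rw [e2, map_mul, h1, one_mul]
    rcases hp23 with rfl | rfl
    · rw [sum_range_succ, sum_range_one, mul_zero, add_zero, ← e4, ha, hb] at hb0
      norm_num at hb0
    · rw [sum_range_succ, sum_range_succ, sum_range_one, mul_zero, add_zero, ← e4, ha, hb] at hb0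
      rcases cv_cases hχ (p₁ + q' * (w * Q) * 2) with h | h | h <;> rw [h] at hb0 <;>
        norm_num at hb0
  · rintro ⟨q', hq'⟩
    by_contra h4
    have hodd : ¬ 2 ∣ q' := by
      rintro ⟨r, hr⟩
      exact h4 ⟨r, by rw [hq', hr]; ring⟩
    have hb0 := hBAL q 2 q' 1 χ hq hχ Nat.prime_two hq' (by norm_num) 1
    rw [sum_range_succ, sum_range_one, mul_zero, add_zero] at hb0
    have e1 : cv χ 1 = 1 := by
      unfold cv
      simp
    have e2 : cv χ (1 + q' * 1 * 1) = 0 := by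
      unfold cv
      rw [MulChar.map_nonunit]
      · simp
      · rw [ZMod.isUnit_iff_coprime]
        intro hc
        have h2 : 2 ∣ 1 + q' * 1 * 1 := by omega
        have h3 : 2 ∣ q := ⟨q', hq'⟩
        have := Nat.dvd_gcd h2 h3
        rw [hc] at this
        norm_num at this
    rw [e1, e2] at hb0
    norm_num at hb0

end Pool.Agent.E8helper54.SG
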